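import Mathlib
import Pool.Agent.helper53.ED.Defs
import Pool.Agent.helper53.ED.LB
import Pool.Agent.helper53.ED.UBfin

/-!
The essential dimension of `PGL_4` over a field of characteristic 2 is 5.
-/

namespace Pool.Agent.Results.MP_d05879_al.EdPGL4

universe u

/-- For every field `F` of characteristic `2`, the essential dimension of `PGL_4` is `5`. -/
theorem result (F : Type u) [Field F] [CharP F 2] : helper53.ED.edPGL 4 F = 5 :=
  le_antisymm (helper53.ED.upper_bound F) (helper53.ED.lower_bound F)

end Pool.Agent.Results.MP_d05879_al.EdPGL4
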